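import Pool.Agent.C4U.Stmts

/-! Squad C4U (MP_be2f05_lc), row PRO: length, mm, good states. -/

set_option autoImplicit false

namespace Pool.Agent.C4U.H66

open Pool.Agent.C4U
open Pool.Agent.C4F (Lt cn NumF Kit)
open Pool.Agent.Helper53_CookLevin (PGen)
open Pool.Agent.Helper53_Chan (Test Test.congr)

section

variable (K : Kit)

include K

theorem up {r : ℕ} {f : (Fin r → List Lt) → ℕ} (h : NumF r f) :
    NumF (r + 1) (fun ρ => f (fun i => ρ i.succ)) := K.rename r (r + 1) Fin.succ f h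

theorem v0 (r : ℕ) : NumF (r + 1) (fun ρ => (ρ 0).length) := K.var (r + 1) 0

theorem imp {r : ℕ} {P Q : (Fin r → List Lt) → Prop} (hP : Test r P) (hQ : Test r Q) :
    Test r (fun ρ => P ρ → Q ρ) := by
  refine Test.congr (K.or _ _ _ (K.not _ _ hP) hQ) fun ρ => ?_
  constructor
  · intro h hp
    rcases h with h | h
    · exact absurd hp h
    · exact h
  · intro h
    by_cases hp : P ρ
    · exact Or.inr (h hp)
    · exact Or.inl hp

end

/-- **PRO** -/
theorem pro (pra : PraStmt) (prd : PrdStmt) (prq : PrqStmt) : ProStmt := by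
  intro K
  have hk : ∀ (r : ℕ) (e : Fin 5 → Fin r), NumF r (fun ρ => (rd (At e ρ)).k) :=
    fun r e => (pra K r e).1
  have hN : ∀ (r : ℕ) (e : Fin 5 → Fin r), NumF r (fun ρ => (rd (At e ρ)).N) :=
    fun r e => (pra K r e).2.1
  have hdd : ∀ (r : ℕ) (e : Fin 5 → Fin r), NumF r (fun ρ => (rd (At e ρ)).dd) :=
    fun r e => (pra K r e).2.2.1
  have hJ : ∀ (r : ℕ) (e : Fin 5 → Fin r) (x : (Fin r → List Lt) → ℕ), NumF r x →
      Test r (fun ρ => (rd (At e ρ)).J (x ρ)) :=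
    fun r e x hx => ((pra K r e).2.2.2.2 x x hx hx).2.1
  have hrc : ∀ (r : ℕ) (e : Fin 5 → Fin r) (x : (Fin r → List Lt) → ℕ), NumF r x →
      NumF r (fun ρ => rc (At e ρ) (x ρ)) :=
    fun r e x hx => ((pra K r e).2.2.2.2 x x hx hx).2.2.2.1
  have hix : ∀ (r : ℕ) (e : Fin 5 → Fin r) (x y : (Fin r → List Lt) → ℕ), NumF r x → NumF r y →
      NumF r (fun ρ => (rd (At e ρ)).ix (x ρ) (y ρ)) :=
    fun r e x y hx hy => ((pra K r e).2.2.2.2 x y hx hy).2.2.2.2
  have hLf : ∀ (r : ℕ) (x y : (Fin r → List Lt) → ℕ), NumF r x → NumF r y →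
      Test r (fun ρ => Lf (x ρ) (y ρ)) := fun r x y hx hy => (prd K r x y hx hy).2.2.1
  have hRt : ∀ (r : ℕ) (x y : (Fin r → List Lt) → ℕ), NumF r x → NumF r y →
      Test r (fun ρ => Rt (x ρ) (y ρ)) := fun r x y hx hy => (prd K r x y hx hy).2.2.2
  have hK : ∀ (r : ℕ) (e : Fin 5 → Fin r) (i x : (Fin r → List Lt) → ℕ), NumF r i → NumF r x →
      Test r (fun ρ => (rd (At e ρ)).K (rc (At e ρ)) (i ρ) (x ρ)) :=
    fun r e i x hi hx => (prq K r e i i x hi hi hx).1
  have hr : ∀ (r : ℕ) (e : Fin 5 → Fin r) (j x : (Fin r → List Lt) → ℕ), NumF r j → NumF r x →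
      NumF r (fun ρ => (rd (At e ρ)).r (rc (At e ρ)) (j ρ) (x ρ)) :=
    fun r e j x hj hx => (prq K r e j j x hj hj hx).2.1
  have ht : ∀ (r : ℕ) (e : Fin 5 → Fin r) (i j x : (Fin r → List Lt) → ℕ), NumF r i → NumF r j →
      NumF r x → NumF r (fun ρ => (rd (At e ρ)).t (rc (At e ρ)) (i ρ) (j ρ) (x ρ)) :=
    fun r e i j x hi hj hx => (prq K r e i j x hi hj hx).2.2
  have hln : ∀ (r : ℕ) (e : Fin 5 → Fin r),
      NumF r (fun ρ => ln (rd (At e ρ)).dd (rc (At e ρ))) := by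
    intro r e
    refine K.cnt r (fun ρ => (rd (At e ρ)).dd) (fun v ρ => ∀ e' < v + 1, 1 ≤ rc (At e ρ) e')
      (hdd r e) ?_
    refine K.all (r + 1) (fun ρ => (ρ 0).length + 1)
      (fun e' ρ => 1 ≤ rc (At (fun i => (e i).succ) ρ) e')
      (K.add _ _ _ (v0 K r) (K.cst _ 1)) ?_
    exact K.le _ _ _ (K.cst _ 1) (hrc (r + 2) (fun i => (e i).succ.succ) _ (v0 K (r + 1)))
  have hmm : ∀ (r : ℕ) (e : Fin 5 → Fin r),
      NumF r (fun ρ => mm (rd (At e ρ)).dd ((rd (At e ρ)).N + 1) (rc (At e ρ))) := by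
    intro r e
    refine K.cnt r (fun ρ => (rd (At e ρ)).dd)
      (fun v ρ => ∃ e' < ln (rd (At e ρ)).dd (rc (At e ρ)), v ≤ e' ∧
        rc (At e ρ) e' < (rd (At e ρ)).N + 1) (hdd r e) ?_
    refine K.ex (r + 1)
      (fun ρ => ln (rd (At (fun i => (e i).succ) ρ)).dd (rc (At (fun i => (e i).succ) ρ)))
      (fun e' ρ => (ρ 0).length ≤ e' ∧ rc (At (fun i => (e i).succ) ρ) e' <
        (rd (At (fun i => (e i).succ) ρ)).N + 1) (hln _ _) ?_
    have h1 := up K (v0 K r)
    have h0 := v0 K (r + 1)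
    exact K.and _ _ _ (K.le _ _ _ h1 h0)
      (K.lt _ _ _ (hrc (r + 2) (fun i => (e i).succ.succ) _ h0)
        (K.add _ _ _ (hN (r + 2) (fun i => (e i).succ.succ)) (K.cst _ 1)))
  intro r e
  refine ⟨hln r e, hmm r e, K.and _ _ _ ?_ (imp K ?_ ?_)⟩
  · refine K.all r (fun ρ => ln (rd (At e ρ)).dd (rc (At e ρ)))
      (fun e' ρ => e' < 2 * (rd (At e ρ)).k → rc (At e ρ) e' ≤ (rd (At e ρ)).N ∧
        (rd (At e ρ)).J (rc (At e ρ) e' - 1)) (hln r e) ?_
    have h0 := v0 K r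
    have h1 := hrc (r + 1) (fun i => (e i).succ) _ h0
    exact imp K (K.lt _ _ _ h0 (K.mul _ _ _ (K.cst _ 2) (hk (r + 1) (fun i => (e i).succ))))
      (K.and _ _ _ (K.le _ _ _ h1 (hN (r + 1) (fun i => (e i).succ)))
        (hJ (r + 1) (fun i => (e i).succ) _ (K.sub _ _ _ h1 (K.cst _ 1))))
  · exact K.le _ _ _ (K.mul _ _ _ (K.cst _ 2) (hk r e)) (hln r e)
  · refine K.all r (fun ρ => (rd (At e ρ)).k)
      (fun i ρ => ∃ x < (rd (At e ρ)).N, (rd (At e ρ)).K (rc (At e ρ)) i x ∧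
        (∀ j < (rd (At e ρ)).k, i < j →
          (rd (At e ρ)).ix i j < ln (rd (At e ρ)).dd (rc (At e ρ)) →
          Lf (rc (At e ρ) ((rd (At e ρ)).ix i j)) ((rd (At e ρ)).r (rc (At e ρ)) j x)) ∧
        (∀ j < (rd (At e ρ)).k, j < i →
          (rd (At e ρ)).ix j i < ln (rd (At e ρ)).dd (rc (At e ρ)) →
          Rt (rc (At e ρ) ((rd (At e ρ)).ix j i)) ((rd (At e ρ)).t (rc (At e ρ)) j i x)))
      (hk r e) ?_
    refine K.ex (r + 1) (fun ρ => (rd (At (fun i => (e i).succ) ρ)).N)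
      (fun x ρ => (rd (At (fun i => (e i).succ) ρ)).K (rc (At (fun i => (e i).succ) ρ))
          (ρ 0).length x ∧
        (∀ j < (rd (At (fun i => (e i).succ) ρ)).k, (ρ 0).length < j →
          (rd (At (fun i => (e i).succ) ρ)).ix (ρ 0).length j <
            ln (rd (At (fun i => (e i).succ) ρ)).dd (rc (At (fun i => (e i).succ) ρ)) →
          Lf (rc (At (fun i => (e i).succ) ρ)
              ((rd (At (fun i => (e i).succ) ρ)).ix (ρ 0).length j))
            ((rd (At (fun i => (e i).succ) ρ)).r (rc (At (fun i => (e i).succ) ρ)) j x)) ∧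
        (∀ j < (rd (At (fun i => (e i).succ) ρ)).k, j < (ρ 0).length →
          (rd (At (fun i => (e i).succ) ρ)).ix j (ρ 0).length <
            ln (rd (At (fun i => (e i).succ) ρ)).dd (rc (At (fun i => (e i).succ) ρ)) →
          Rt (rc (At (fun i => (e i).succ) ρ)
              ((rd (At (fun i => (e i).succ) ρ)).ix j (ρ 0).length))
            ((rd (At (fun i => (e i).succ) ρ)).t (rc (At (fun i => (e i).succ) ρ)) j
              (ρ 0).length x))) (hN _ _) ?_
    have i2 : NumF (r + 2) (fun ρ => (ρ 1).length) := up K (v0 K r)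
    have x2 : NumF (r + 2) (fun ρ => (ρ 0).length) := v0 K (r + 1)
    have i3 : NumF (r + 3) (fun ρ => (ρ 2).length) := up K i2
    have x3 : NumF (r + 3) (fun ρ => (ρ 1).length) := up K x2
    have j3 : NumF (r + 3) (fun ρ => (ρ 0).length) := v0 K (r + 2)
    refine K.and _ _ _ (hK (r + 2) (fun i => (e i).succ.succ) _ _ i2 x2) (K.and _ _ _ ?_ ?_)
    · refine K.all (r + 2) (fun ρ => (rd (At (fun i => (e i).succ.succ) ρ)).k)
        (fun j ρ => (ρ 1).length < j →
          (rd (At (fun i => (e i).succ.succ) ρ)).ix (ρ 1).length j <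
            ln (rd (At (fun i => (e i).succ.succ) ρ)).dd (rc (At (fun i => (e i).succ.succ) ρ)) →
          Lf (rc (At (fun i => (e i).succ.succ) ρ)
              ((rd (At (fun i => (e i).succ.succ) ρ)).ix (ρ 1).length j))
            ((rd (At (fun i => (e i).succ.succ) ρ)).r (rc (At (fun i => (e i).succ.succ) ρ)) j
              (ρ 0).length)) (hk _ _) ?_
      have hi := hix (r + 3) (fun i => (e i).succ.succ.succ) _ _ i3 j3
      exact imp K (K.lt _ _ _ i3 j3) (imp K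
        (K.lt _ _ _ hi (hln (r + 3) (fun i => (e i).succ.succ.succ)))
        (hLf _ _ _ (hrc (r + 3) (fun i => (e i).succ.succ.succ) _ hi)
          (hr (r + 3) (fun i => (e i).succ.succ.succ) _ _ j3 x3)))
    · refine K.all (r + 2) (fun ρ => (rd (At (fun i => (e i).succ.succ) ρ)).k)
        (fun j ρ => j < (ρ 1).length →
          (rd (At (fun i => (e i).succ.succ) ρ)).ix j (ρ 1).length <
            ln (rd (At (fun i => (e i).succ.succ) ρ)).dd (rc (At (fun i => (e i).succ.succ) ρ)) →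
          Rt (rc (At (fun i => (e i).succ.succ) ρ)
              ((rd (At (fun i => (e i).succ.succ) ρ)).ix j (ρ 1).length))
            ((rd (At (fun i => (e i).succ.succ) ρ)).t (rc (At (fun i => (e i).succ.succ) ρ)) j
              (ρ 1).length (ρ 0).length)) (hk _ _) ?_
      have hi := hix (r + 3) (fun i => (e i).succ.succ.succ) _ _ j3 i3
      exact imp K (K.lt _ _ _ j3 i3) (imp K
        (K.lt _ _ _ hi (hln (r + 3) (fun i => (e i).succ.succ.succ)))
        (hRt _ _ _ (hrc (r + 3) (fun i => (e i).succ.succ.succ) _ hi)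
          (ht (r + 3) (fun i => (e i).succ.succ.succ) _ _ _ j3 i3 x3)))

end Pool.Agent.C4U.H66
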